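import Pool.Agent.N225.MD.G

/-!
# Maximal distance minimizers for a Euclidean ball: localization, the range `R/√2 ≤ r < R`, and the least length

`Covers M r S`: `S` is a connected compact set of `ℝ^d` whose closed `r`-neighbourhood contains `M`; `IsMin M r S`: `S` is an
`r`-minimizer for `M`; `len M r`: the least length; `hullLen d`: the least length (infimum) of a connected compact set whose
convex hull contains the unit ball.  For `d ≥ 2`, `M = B_R` and `0 < r < R`:

* every minimizer lies in the ball of radius `√(R² - r²)` and in the ball whose radius is its length, and its convex hull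
  contains the ball of radius `R - r`;
* for `r ≥ R / √2` the minimizers for the ball are exactly the minimizers for the sphere;
* for `r → R` the least length is asymptotic to `hullLen d * (R - r)`, it is at least this for all `r < R`, and the minimizers,
  scaled by `1 / (R - r)`, are asymptotically optimal sets for the hull problem and stay bounded;
* for `r → 0` the least length is of order `R^d / r^(d - 1)`.
-/

set_option autoImplicit false

open Metric Set MeasureTheory Filter
open scoped ENNReal NNReal Topology Pointwise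

namespace Pool.Agent.Results.MP_8c5d11_gt.BallMinimizers

open Pool.Agent.N225.MD

/-- **Maximal distance minimizers for a ball.** -/
theorem result {d : ℕ} (hd : 2 ≤ d) {R : ℝ} (hR : 0 < R) :
    (∀ r : ℝ, 0 < r → r < R → ∀ S : Set (E d), IsMin (closedBall 0 R) r S →
      S ⊆ closedBall 0 (√(R ^ 2 - r ^ 2)) ∧ closedBall 0 (R - r) ⊆ convexHull ℝ S ∧
        ∀ s ∈ S, ENNReal.ofReal ‖s‖ ≤ μH[1] S) ∧
    (∀ r : ℝ, 0 < r → r < R → R ≤ √2 * r → ∀ S : Set (E d),
      IsMin (closedBall 0 R) r S ↔ IsMin (sphere 0 R) r S) ∧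
    (∀ r : ℝ, 0 < r → r < R →
      ENNReal.ofReal (R - r) * hullLen d ≤ len (closedBall (0 : E d) R) r) ∧
    Tendsto (fun r : ℝ => len (closedBall (0 : E d) R) r / ENNReal.ofReal (R - r)) (𝓝[<] R)
      (𝓝 (hullLen d)) ∧
    (∀ ε : ℝ, 0 < ε → ∀ᶠ r : ℝ in 𝓝[<] R, ∀ S : Set (E d), IsMin (closedBall 0 R) r S →
      Hulls ((R - r)⁻¹ • S) ∧ μH[1] ((R - r)⁻¹ • S) ≤ hullLen d + ENNReal.ofReal ε ∧
        ∀ s ∈ S, ‖s‖ ≤ (R - r) * ((hullLen d).toReal + ε)) ∧
    (2 ≤ hullLen d ∧ ENNReal.ofReal (((d : ℝ) + 1) / 2) ≤ hullLen d ∧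
      hullLen d ≤ ENNReal.ofReal (2 * d * √(d : ℝ))) ∧
    (∀ r : ℝ, 0 < r → r < R →
      (∀ ρ : ℝ, 0 < ρ → ρ ≤ 2 * (R - r) →
        ENNReal.ofReal (ρ / 2 * (R / (ρ + r)) ^ d) ≤ len (closedBall (0 : E d) R) r) ∧
      len (closedBall (0 : E d) R) r ≤ ENNReal.ofReal (2 * r * ((2 * R + r) / r) ^ d)) := by
  have hd1 : 1 ≤ d := by omega
  refine ⟨fun r hr hrR S h => ⟨?_, ?_, fun s hs => ?_⟩, fun r hr hrR h2 S => ?_, fun r hr hrR => ?_,
    tendsto_len hR hd1, fun ε hε => ?_, ⟨two_le_hullLen hd1, dim_le_hullLen hd1, hullLen_le hd1⟩,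
    fun r hr hrR => ⟨fun ρ hρ hρ2 => le_iInf₂ fun S h => h.lower hR hr.le hd1 hρ hρ2,
      len_upper hR.le hr⟩⟩
  · exact h.localized hr hrR hd1 le_rfl sphere_subset_closedBall
  · exact ((h.covers.mono sphere_subset_closedBall).supp hR.le).hull h.covers.cpt
      h.covers.conn.nonempty
  · rw [h.eq_len]
    exact h.norm_le hR.le hrR.le sphere_subset_closedBall hs
  · refine isMin_iff hr hrR hd1 ?_
    have h3 : R ^ 2 ≤ (√2 * r) ^ 2 := pow_le_pow_left₀ hR.le h2 2
    rwa [mul_pow, Real.sq_sqrt (by norm_num)] at h3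
  · exact (le_len hR.le hrR).trans (len_mono sphere_subset_closedBall)
  · have hfin : hullLen d ≠ ∞ := ((hullLen_le hd1).trans_lt ENNReal.ofReal_lt_top).ne
    have hlt : hullLen d < hullLen d + ENNReal.ofReal ε :=
      ENNReal.lt_add_right hfin (ENNReal.ofReal_pos.2 hε).ne'
    have hR' : ∀ᶠ r : ℝ in 𝓝[<] R, 0 < r :=
      nhdsWithin_le_nhds (ContinuousAt.eventually_lt (by fun_prop) (by fun_prop) hR)
    filter_upwards [(tendsto_order.1 (tendsto_len (d := d) hR hd1)).2 _ hlt, hR',
      self_mem_nhdsWithin] with r hr hr0 hrR S h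
    have hrR' : r < R := hrR
    have hpos : 0 < R - r := sub_pos.2 hrR'
    refine ⟨(h.covers.mono sphere_subset_closedBall).hulls' hR.le hrR', ?_, fun s hs => ?_⟩
    · rw [h.scaled hrR']
      exact hr.le
    · have h1 := h.norm_le hR.le hrR'.le sphere_subset_closedBall hs
      have h2 : len (closedBall (0 : E d) R) r ≤
          ENNReal.ofReal ((R - r) * ((hullLen d).toReal + ε)) := by
        rw [ENNReal.ofReal_mul hpos.le, ENNReal.ofReal_add ENNReal.toReal_nonneg hε.le,
          ENNReal.ofReal_toReal hfin, mul_comm]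
        exact (ENNReal.div_le_iff_le_mul
          (Or.inl (by rw [ne_eq, ENNReal.ofReal_eq_zero]; linarith))
          (Or.inl ENNReal.ofReal_ne_top)).1 hr.le
      exact (ENNReal.ofReal_le_ofReal_iff (by positivity)).1 (h1.trans h2)

end Pool.Agent.Results.MP_8c5d11_gt.BallMinimizers
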